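import Pool.Agent.helper15.LC.Spec

open Finset Filter Topology CU

namespace CO

lemma KEY_KT0 {d n : ℕ} [NeZero n] (b : ℝ) (hb : 0 ≤ b) (x y : Site d n) : 0 ≤ KT b (fun _ => 0) x y := by
  unfold KT
  rw [add_zero]
  refine mul_nonneg hb (Finset.sum_nonneg fun i _ => ?_)
  split_ifs <;> norm_num

lemma KEY_KTm {d n : ℕ} [NeZero n] (b b' : ℝ) (hb : b ≤ b') (x y : Site d n) : KT b (fun _ => 0) x y ≤ KT b' (fun _ => 0) x y := by
  unfold KT
  rw [add_zero, add_zero]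
  refine mul_le_mul_of_nonneg_right hb (Finset.sum_nonneg fun i _ => ?_)
  split_ifs <;> norm_num

lemma KEY_mono (hGKW : GKW_stmt) (d n : ℕ) [NeZero n] (b b' h h' : ℝ) (hb : 0 ≤ b) (hbb : b ≤ b') (hh : 0 ≤ h) (hhh : h ≤ h') :
    mT d n b h ≤ mT d n b' h' := by
  have h1 := hGKW (Site d n) (KT b fun _ => 0) (KT b' fun _ => 0) (fun _ => h) (fun _ => h') (KEY_KT0 b hb) (fun _ => hh)
    (KEY_KTm b b' hbb) (fun _ => hhh) ∅ ∅ (Finset.Subset.refl _) 0 0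
  have h2 := h1.1
  rw [h1.2.2.2.2] at h2
  have h3 := (hGKW (Site d n) (KT b' fun _ => 0) (KT b' fun _ => 0) (fun _ => h') (fun _ => h') (KEY_KT0 b' (hb.trans hbb)) (fun _ => hh.trans hhh)
    (fun _ _ => le_rfl) (fun _ => le_rfl) ∅ ∅ (Finset.Subset.refl _) 0 0).2.2.2.2
  rw [h3] at h2
  exact h2

theorem KEY (hLYC : LYC_stmt) (hLYI : LYI_stmt) (hMSH : MSH_stmt) (hMUP : MUP_stmt) (hBAS : BAS_stmt) (hMSP : MSP_stmt)
    (hGKW : GKW_stmt) : KEY_stmt := by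
  intro d b a κ hd hb ha hκ
  obtain ⟨hm0, hmL, hL1⟩ := (hMSP d).1 b 0 hb.le
  have hm1 : ms d b ≤ 1 := hmL.trans hL1
  obtain ⟨a', ha'⟩ : ∃ a' : ℝ, a' = min a 1 := ⟨_, rfl⟩
  have ha'0 : 0 < a' := by rw [ha']; exact lt_min ha one_pos
  have ha'a : a' ≤ a := by rw [ha']; exact min_le_left _ _
  have ha'1 : a' ≤ 1 := by rw [ha']; exact min_le_right _ _
  have hd0 : (1 : ℝ) ≤ d := by exact_mod_cast hd
  obtain ⟨ε, hε, hF⟩ := hLYI (2 * d + 1) (2 * d + 2) a' κ ha'0 (by linarith) (by linarith) hκ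
  obtain ⟨h1, hh1, hup⟩ := hMUP d b ε hb.le hε
  refine ⟨min b (h1 / (2 * d + 2)), lt_min hb (by positivity), min_le_left _ _, fun δ hδ hδ0 => ?_⟩
  have hδb : δ ≤ b := hδ0.trans (min_le_left _ _)
  have hδh : (2 * d + 2) * δ ≤ h1 := by
    have h2 := hδ0.trans (min_le_right _ _)
    rw [le_div_iff₀ (by positivity)] at h2
    linarith
  filter_upwards [hup, hBAS d b δ ε hd hb.le hδ hε] with n hn1 hn2
  have hbd : 0 ≤ b - δ := by linarith
  obtain ⟨F, hF1, hF2, hF3⟩ := hLYC (Site d (n + 3)) (KT (b - δ) fun _ => 0) 0 (KEY_KT0 (b - δ) hbd)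
  have hre : ∀ z : ℂ, 0 < z.re → 0 < ((δ : ℂ) * z).re := by
    intro z hz
    rw [Complex.re_ofReal_mul]
    exact mul_pos hδ hz
  have hG3 : ∀ x : ℝ, 0 < x → F ((δ : ℂ) * (x : ℂ)) = ((mT d (n + 3) (b - δ) (x * δ) : ℝ) : ℂ) := by
    intro x hx
    have h2 := hF3 (x * δ) (mul_pos hx hδ)
    rw [show (δ : ℂ) * (x : ℂ) = ((x * δ : ℝ) : ℂ) by push_cast; ring, h2]
    rfl
  have hmain := hF (fun z => F ((δ : ℂ) * z)) (ms d b) ?_ (fun z hz => hF2 _ (hre z hz)) hm0 hm1 ?_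
  · rw [hG3 a' ha'0, ← Complex.ofReal_sub, Complex.norm_real, Real.norm_eq_abs] at hmain
    have h3 := (abs_le.1 hmain).1
    have h4 := KEY_mono hGKW d (n + 3) (b - δ) (b - δ) (a' * δ) (a * δ) hbd le_rfl (by positivity) (mul_le_mul_of_nonneg_right ha'a hδ.le)
    linarith
  · refine hF1.comp (Differentiable.differentiableOn (by fun_prop)) fun z hz => hre z hz
  · intro x hxA hxB
    have hx0 : 0 < x := by linarith
    rw [hG3 x hx0, ← Complex.ofReal_sub, Complex.norm_real, Real.norm_eq_abs, abs_le]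
    constructor
    · have h3 := hMSH d (n + 3) b δ ((x - 2 * d) * δ) hb.le hδ.le
      rw [show (x - 2 * d) * δ + 2 * d * δ = x * δ by ring] at h3
      have h4 := KEY_mono hGKW d (n + 3) b b δ ((x - 2 * d) * δ) hb.le le_rfl hδ.le (by nlinarith)
      linarith
    · have h3 := KEY_mono hGKW d (n + 3) (b - δ) b (x * δ) (x * δ) hbd (by linarith) (by positivity) le_rfl
      have h4 := hn1 (x * δ) (by positivity) (le_trans (mul_le_mul_of_nonneg_right hxB hδ.le) hδh)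
      linarith

end CO
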