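import Pool.Agent.helper15.LC.Spec

open Finset Filter Topology CU

namespace CO

section RTM_sec

variable {V : Type} [Fintype V] [DecidableEq V]

/-- partition sum on `pl A` -/
noncomputable def RTM_Z (K : V → V → ℝ) (g : V → ℝ) (A : Finset V) : ℝ := ∑ σ ∈ pl A, Real.exp (CWM.HH K g σ)

lemma RTM_ne (A : Finset V) : (fun _ => true : V → Bool) ∈ pl A := by
  unfold pl
  rw [Finset.mem_filter]
  exact ⟨Finset.mem_univ _, fun _ _ => rfl⟩

lemma RTM_Zpos (K : V → V → ℝ) (g : V → ℝ) (A : Finset V) : 0 < RTM_Z K g A :=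
  Finset.sum_pos (fun σ _ => Real.exp_pos _) ⟨_, RTM_ne A⟩

/-- the perturbation -/
noncomputable def RTM_B (K K' : V → V → ℝ) (σ : V → Bool) : ℝ := ∑ x, ∑ y, (K x y - K' x y) * (sg (σ x) * sg (σ y))

lemma RTM_HH (K K' : V → V → ℝ) (g : V → ℝ) (t : ℝ) (σ : V → Bool) :
    CWM.HH K' g σ + t * RTM_B K K' σ = CWM.HH (fun x y => K' x y + t * (K x y - K' x y)) g σ := by
  unfold CWM.HH RTM_B
  rw [add_right_comm, Finset.mul_sum, ← Finset.sum_add_distrib]
  congr 1
  refine Finset.sum_congr rfl fun x _ => ?_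
  rw [Finset.mul_sum, ← Finset.sum_add_distrib]
  refine Finset.sum_congr rfl fun y _ => ?_
  ring

lemma RTM_deriv (hLZ : LZ_stmt) (K K' : V → V → ℝ) (g : V → ℝ) (A : Finset V) (t : ℝ) :
    HasDerivAt (fun t : ℝ => Real.log (RTM_Z (fun x y => K' x y + t * (K x y - K' x y)) g A))
      (exA (fun x y => K' x y + t * (K x y - K' x y)) g A (RTM_B K K')) t := by
  haveI : Nonempty {σ : V → Bool // σ ∈ pl A} := ⟨⟨_, RTM_ne A⟩⟩
  have h1 := (hLZ {σ : V → Bool // σ ∈ pl A} (fun σ => CWM.HH K' g σ.1) (fun σ => RTM_B K K' σ.1)).1 t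
  have h2 : ∀ t : ℝ, (∑ x : {σ : V → Bool // σ ∈ pl A}, Real.exp (CWM.HH K' g x.1 + t * RTM_B K K' x.1)) =
      RTM_Z (fun x y => K' x y + t * (K x y - K' x y)) g A := by
    intro t
    unfold RTM_Z
    rw [← Finset.sum_coe_sort (pl A)]
    exact Finset.sum_congr rfl fun σ _ => by rw [RTM_HH]
  have h3 : (∑ x : {σ : V → Bool // σ ∈ pl A}, Real.exp (CWM.HH K' g x.1 + t * RTM_B K K' x.1) * RTM_B K K' x.1) =
      ∑ σ ∈ pl A, Real.exp (CWM.HH (fun x y => K' x y + t * (K x y - K' x y)) g σ) * RTM_B K K' σ := by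
    rw [← Finset.sum_coe_sort (pl A)]
    exact Finset.sum_congr rfl fun σ _ => by rw [RTM_HH]
  rw [h3, h2 t] at h1
  have h4 : (fun t : ℝ => Real.log (∑ x : {σ : V → Bool // σ ∈ pl A}, Real.exp (CWM.HH K' g x.1 + t * RTM_B K K' x.1))) =
      fun t : ℝ => Real.log (RTM_Z (fun x y => K' x y + t * (K x y - K' x y)) g A) := by
    funext t
    rw [h2 t]
  rw [h4] at h1
  exact h1

lemma RTM_lin (K K' L : V → V → ℝ) (g : V → ℝ) (A : Finset V) :
    exA L g A (RTM_B K K') = ∑ x, ∑ y, (K x y - K' x y) * exA L g A (fun σ => sg (σ x) * sg (σ y)) := by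
  unfold exA RTM_B
  have h1 : (∑ σ ∈ pl A, Real.exp (CWM.HH L g σ) * ∑ x, ∑ y, (K x y - K' x y) * (sg (σ x) * sg (σ y))) =
      ∑ x, ∑ y, (K x y - K' x y) * ∑ σ ∈ pl A, Real.exp (CWM.HH L g σ) * (sg (σ x) * sg (σ y)) := by
    have h2 : ∀ σ ∈ pl A, Real.exp (CWM.HH L g σ) * ∑ x, ∑ y, (K x y - K' x y) * (sg (σ x) * sg (σ y)) =
        ∑ x, ∑ y, (K x y - K' x y) * (Real.exp (CWM.HH L g σ) * (sg (σ x) * sg (σ y))) := by
      intro σ _
      rw [Finset.mul_sum]
      refine Finset.sum_congr rfl fun x _ => ?_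
      rw [Finset.mul_sum]
      refine Finset.sum_congr rfl fun y _ => ?_
      ring
    rw [Finset.sum_congr rfl h2, Finset.sum_comm]
    refine Finset.sum_congr rfl fun x _ => ?_
    rw [Finset.sum_comm]
    refine Finset.sum_congr rfl fun y _ => ?_
    rw [Finset.mul_sum]
  rw [h1, Finset.sum_div]
  refine Finset.sum_congr rfl fun x _ => ?_
  rw [Finset.sum_div]
  refine Finset.sum_congr rfl fun y _ => ?_
  rw [mul_div_assoc]

lemma RTM_exp (K : V → V → ℝ) (w : V → ℝ) (A : Finset V) :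
    exA K (fun _ => 0) A (fun σ => Real.exp (∑ x, w x * sg (σ x))) = RTM_Z K w A / RTM_Z K (fun _ => 0) A := by
  unfold exA RTM_Z
  congr 1
  refine Finset.sum_congr rfl fun σ _ => ?_
  rw [← Real.exp_add]
  congr 1
  unfold CWM.HH
  simp

end RTM_sec

theorem RTM (hPIN : PIN_stmt) (hLZ : LZ_stmt) : RTM_stmt := by
  intro V _ _ K K' w A hK' hKK hw
  have hneg : ∀ L : V → V → ℝ, exA L (fun _ => 0) A (fun σ => Real.exp (-∑ x, w x * sg (σ x))) =
      RTM_Z L (fun x => -w x) A / RTM_Z L (fun _ => 0) A := by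
    intro L
    rw [← RTM_exp]
    congr 1
    funext σ
    rw [← Finset.sum_neg_distrib]
    congr 1
    exact Finset.sum_congr rfl fun x _ => by ring
  rw [hneg, hneg, RTM_exp, RTM_exp]
  have hKt : ∀ t : ℝ, 0 ≤ t → ∀ x y, 0 ≤ K' x y + t * (K x y - K' x y) := fun t ht x y =>
    add_nonneg (hK' x y) (mul_nonneg ht (sub_nonneg.2 (hKK x y)))
  obtain ⟨G, hG⟩ : ∃ G : ℝ → ℝ, G = fun t : ℝ => Real.log (RTM_Z (fun x y => K' x y + t * (K x y - K' x y)) (fun x => -w x) A) -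
    Real.log (RTM_Z (fun x y => K' x y + t * (K x y - K' x y)) w A) := ⟨_, rfl⟩
  have hder : ∀ t : ℝ, HasDerivAt G (exA (fun x y => K' x y + t * (K x y - K' x y)) (fun x => -w x) A (RTM_B K K') -
      exA (fun x y => K' x y + t * (K x y - K' x y)) w A (RTM_B K K')) t := by
    intro t
    rw [hG]
    exact (RTM_deriv hLZ K K' (fun x => -w x) A t).sub (RTM_deriv hLZ K K' w A t)
  have hle : ∀ t : ℝ, 0 ≤ t → exA (fun x y => K' x y + t * (K x y - K' x y)) (fun x => -w x) A (RTM_B K K') -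
      exA (fun x y => K' x y + t * (K x y - K' x y)) w A (RTM_B K K') ≤ 0 := by
    intro t ht
    rw [RTM_lin, RTM_lin, sub_nonpos]
    refine Finset.sum_le_sum fun x _ => Finset.sum_le_sum fun y _ => ?_
    have h1 := (hPIN V (fun x y => K' x y + t * (K x y - K' x y)) (fun x y => K' x y + t * (K x y - K' x y)) w (fun x => -w x) A
      (fun x y => le_of_eq (abs_of_nonneg (hKt t ht x y))) (fun x => by rw [abs_neg, abs_of_nonneg (hw x)])).1 x y
    exact mul_le_mul_of_nonneg_left ((le_abs_self _).trans h1) (sub_nonneg.2 (hKK x y))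
  have hanti : AntitoneOn G (Set.Icc 0 1) := by
    refine antitoneOn_of_deriv_nonpos (convex_Icc 0 1) (fun t _ => (hder t).continuousAt.continuousWithinAt)
      (fun t _ => (hder t).differentiableAt.differentiableWithinAt) fun t ht => ?_
    rw [interior_Icc] at ht
    rw [(hder t).deriv]
    exact hle t ht.1.le
  have h01 := hanti (Set.left_mem_Icc.2 zero_le_one) (Set.right_mem_Icc.2 zero_le_one) zero_le_one
  rw [hG] at h01
  simp only [one_mul, zero_mul, add_zero, add_sub_cancel] at h01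
  have p1 := RTM_Zpos K (fun x => -w x) A
  have p2 := RTM_Zpos K w A
  have p3 := RTM_Zpos K' (fun x => -w x) A
  have p4 := RTM_Zpos K' w A
  have p5 := RTM_Zpos K (fun _ => 0) A
  have p6 := RTM_Zpos K' (fun _ => 0) A
  have h2 : RTM_Z K (fun x => -w x) A * RTM_Z K' w A ≤ RTM_Z K' (fun x => -w x) A * RTM_Z K w A := by
    rw [← Real.log_le_log_iff (mul_pos p1 p4) (mul_pos p3 p2), Real.log_mul p1.ne' p4.ne', Real.log_mul p3.ne' p2.ne']
    linarith
  rw [div_mul_div_comm, div_mul_div_comm, mul_comm (RTM_Z K' (fun _ => 0) A) (RTM_Z K (fun _ => 0) A)]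
  exact div_le_div_of_nonneg_right h2 (mul_pos p5 p6).le

end CO
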